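import Mathlib
import Pool.Agent.Q209.HFCDefs

/-!
# Every HFC space is strongly D

No assumption on the closures of countable sets is needed. The proof is described in
`Pool.Agent.Results.MP_2abaf2_gt.HFCIsDSpace`; it is carried out in `Pool.Agent.Q209.HFCD`.
-/

set_option autoImplicit false

namespace Pool.Agent.Results.MP_1e45a6_gt.HFCIsStronglyD

open Pool.Agent.Q209.HFCDefs

universe u

/-- Every HFC subspace `X` of a Cantor cube `2^L` (`L` any linearly ordered set, in particular any
cardinal) is strongly D: for each neighbourhood assignment `U` on `X` there is a set `D` such that
the sets `U x`, `x ∈ D`, cover `X`, and each point of `X` lies in the intersection of finitely many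
sets `U x` which contains only finitely many points of `D`. -/
theorem result (L : Type u) [LinearOrder L] (X : Set (L → Bool)) (h : HFC X) : StronglyD X :=
  stronglyD h

end Pool.Agent.Results.MP_1e45a6_gt.HFCIsStronglyD
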